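import Mathlib

/-!
Flashes and rainbows: basic notions (rainbow paths with their colour sets, flash labels,
weighted partition lemma).
-/

namespace Pool.Agent.P.MP_f298ee_co

open Finset

/-- A monotone rainbow path inside `V` from `s` to `v` whose set of colours is `A`. -/
inductive Path (c : ℕ → ℕ → ℕ) (V : Finset ℕ) (s : ℕ) : ℕ → Finset ℕ → Prop
  | refl : s ∈ V → Path c V s s ∅
  | snoc {u v : ℕ} {A : Finset ℕ} : Path c V s u A → v ∈ V → u < v → c u v ∉ A →
      Path c V s v (insert (c u v) A)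

/-- A monotone path of colour `a` with `j` edges inside `V` ending at `v`. -/
inductive Fl (c : ℕ → ℕ → ℕ) (V : Finset ℕ) (a : ℕ) : ℕ → ℕ → Prop
  | zero {v : ℕ} : v ∈ V → Fl c V a v 0
  | succ {u v j : ℕ} : Fl c V a u j → v ∈ V → u < v → c u v = a → Fl c V a v (j + 1)

/-- No flash with `l` or more edges. -/
def NoFl (c : ℕ → ℕ → ℕ) (V : Finset ℕ) (l : ℕ) : Prop := ∀ a v j, Fl c V a v j → j < l

/-- No rainbow with `k` or more edges. -/
def NoRb (c : ℕ → ℕ → ℕ) (V : Finset ℕ) (k : ℕ) : Prop := ∀ s v A, Path c V s v A → A.card < k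

/-- No edge inside `X` has a colour in `T`. -/
def Free (c : ℕ → ℕ → ℕ) (X T : Finset ℕ) : Prop := ∀ u ∈ X, ∀ v ∈ X, u < v → c u v ∉ T

variable {c : ℕ → ℕ → ℕ}

theorem Path.mono {V V' : Finset ℕ} (h : V ⊆ V') {s v : ℕ} {A : Finset ℕ}
    (p : Path c V s v A) : Path c V' s v A := by
  induction p with
  | refl hs => exact Path.refl (h hs)
  | snoc _ hv huv hc ih => exact Path.snoc ih (h hv) huv hc

theorem Path.end_mem {V : Finset ℕ} {s v : ℕ} {A : Finset ℕ} (p : Path c V s v A) : v ∈ V := by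
  cases p with
  | refl hs => exact hs
  | snoc _ hv _ _ => exact hv

theorem Path.start_mem {V : Finset ℕ} {s v : ℕ} {A : Finset ℕ} (p : Path c V s v A) : s ∈ V := by
  induction p with
  | refl hs => exact hs
  | snoc _ _ _ _ ih => exact ih

theorem Path.trans {V : Finset ℕ} {s u v : ℕ} {A B : Finset ℕ} (p : Path c V s u A)
    (q : Path c V u v B) (h : Disjoint A B) : Path c V s v (A ∪ B) := by
  induction q with
  | refl _ => simpa using p
  | @snoc x y B' _ hy hxy hc ih =>
    have h1 : Disjoint A B' := h.mono_right (subset_insert _ _)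
    have h2 : c x y ∉ A ∪ B' := by
      intro hm
      rcases mem_union.1 hm with hm | hm
      · exact (disjoint_left.1 h hm) (mem_insert_self _ _)
      · exact hc hm
    have := Path.snoc (ih h1) hy hxy h2
    rwa [← union_insert] at this

theorem Path.cons {V : Finset ℕ} {s u v : ℕ} {B : Finset ℕ} (hs : s ∈ V) (hsu : s < u)
    (q : Path c V u v B) (h : c s u ∉ B) : Path c V s v (insert (c s u) B) := by
  have p : Path c V s u (insert (c s u) ∅) :=
    Path.snoc (Path.refl hs) q.start_mem hsu (notMem_empty _)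
  have := p.trans q (by simpa using h)
  simpa using this

theorem Path.disjoint_of_free {X T : Finset ℕ} (hf : Free c X T) {s v : ℕ} {A : Finset ℕ}
    (p : Path c X s v A) : Disjoint A T := by
  induction p with
  | refl _ => exact disjoint_empty_left _
  | snoc q hv huv _ ih =>
    rw [disjoint_insert_left]
    exact ⟨hf _ q.end_mem _ hv huv, ih⟩

theorem Fl.mono {V V' : Finset ℕ} (h : V ⊆ V') {a v j : ℕ} (p : Fl c V a v j) :
    Fl c V' a v j := by
  induction p with
  | zero hv => exact Fl.zero (h hv)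
  | succ _ hv huv hc ih => exact Fl.succ ih (h hv) huv hc

theorem NoFl.mono {V V' : Finset ℕ} {l : ℕ} (hV : NoFl c V' l) (h : V ⊆ V') : NoFl c V l :=
  fun a v j p => hV a v j (p.mono h)

theorem NoRb.mono {V V' : Finset ℕ} {k : ℕ} (hV : NoRb c V' k) (h : V ⊆ V') : NoRb c V k :=
  fun s v A p => hV s v A (p.mono h)

theorem Free.mono {X Y T : Finset ℕ} (hX : Free c X T) (h : Y ⊆ X) : Free c Y T :=
  fun u hu v hv huv => hX u (h hu) v (h hv) huv

theorem Free.union {X S T : Finset ℕ} (h1 : Free c X S) (h2 : Free c X T) : Free c X (S ∪ T) := by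
  intro u hu v hv huv hm
  rcases mem_union.1 hm with hm | hm
  · exact h1 u hu v hv huv hm
  · exact h2 u hu v hv huv hm

/-- Flash labels. -/
theorem exists_label {X : Finset ℕ} {l : ℕ} (h : NoFl c X l) :
    ∃ φ : ℕ → ℕ → ℕ, (∀ v ∈ X, ∀ a, φ v a < l) ∧
      (∀ u ∈ X, ∀ v ∈ X, u < v → φ u (c u v) < φ v (c u v)) ∧
      (∀ v ∈ X, ∀ a, φ v a ≠ 0 → ∃ u ∈ X, u < v ∧ c u v = a) := by
  classical
  have key : ∀ v ∈ X, ∀ a, Fl c X a v (Nat.findGreatest (Fl c X a v) l) := fun v hv a =>
    Nat.findGreatest_spec (Nat.zero_le l) (Fl.zero hv)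
  refine ⟨fun v a => Nat.findGreatest (Fl c X a v) l, fun v hv a => h _ _ _ (key v hv a),
    fun u hu v hv huv => ?_, fun v hv a hne => ?_⟩
  · have h1 := Fl.succ (key u hu (c u v)) hv huv rfl
    exact Nat.lt_of_succ_le (Nat.le_findGreatest (h _ _ _ h1).le h1)
  · have h1 := key v hv a
    have : ∀ j, Fl c X a v j → j ≠ 0 → ∃ u ∈ X, u < v ∧ c u v = a := by
      intro j hj hj0
      cases hj with
      | zero _ => exact absurd rfl hj0
      | @succ u _ j' q _ huv hc =>
        refine ⟨u, ?_, huv, hc⟩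
        cases q with
        | zero hu => exact hu
        | succ _ hu _ _ => exact hu
    exact this _ h1 hne

/-- Weighted partition lemma. -/
theorem weighted {X0 : Finset ℕ} {l : ℕ} {φ : ℕ → ℕ → ℕ} (h0 : ∀ v ∈ X0, ∀ a, φ v a < l)
    (h1 : ∀ u ∈ X0, ∀ v ∈ X0, u < v → φ u (c u v) < φ v (c u v))
    (w : ℕ → ℕ → ℝ) (hw : ∀ a x, 0 ≤ w a x) (ν : ℝ) (T : Finset ℕ) :
    ∀ X ⊆ X0, (∀ Y ⊆ X, Free c Y T → (Y.card : ℝ) ≤ ν) →
      ∑ v ∈ X, ∏ a ∈ T, w a (φ v a) ≤ ν * ∏ a ∈ T, ∑ x ∈ range l, w a x := by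
  classical
  induction T using Finset.induction_on with
  | empty =>
    intro X _ hY
    simpa using hY X Subset.rfl (fun _ _ _ _ _ => notMem_empty _)
  | insert a T ha ih =>
    intro X hX hY
    simp only [prod_insert ha]
    rw [← sum_fiberwise_of_maps_to (s := X) (t := range l) (g := fun v => φ v a)
      (fun v hv => mem_range.2 (h0 v (hX hv) a))]
    rw [mul_left_comm, sum_mul]
    refine sum_le_sum fun x _ => ?_
    have e : ∑ v ∈ X with φ v a = x, w a (φ v a) * ∏ b ∈ T, w b (φ v b)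
        = w a x * ∑ v ∈ X with φ v a = x, ∏ b ∈ T, w b (φ v b) := by
      rw [mul_sum]
      refine sum_congr rfl fun v hv => ?_
      rw [(mem_filter.1 hv).2]
    rw [e]
    refine mul_le_mul_of_nonneg_left (ih _ ((filter_subset _ _).trans hX) fun Y hYs hf => ?_)
      (hw a x)
    refine hY Y (hYs.trans (filter_subset _ _)) fun u hu v hv huv hm => ?_
    rcases mem_insert.1 hm with hm | hm
    · have hu' := mem_filter.1 (hYs hu)
      have hv' := mem_filter.1 (hYs hv)
      have := h1 u (hX hu'.1) v (hX hv'.1) huv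
      rw [hm, hu'.2, hv'.2] at this
      exact lt_irrefl _ this
    · exact hf u hu v hv huv hm

/-- Unweighted partition lemma. -/
theorem card_le_of_free {X T : Finset ℕ} {l : ℕ} (h : NoFl c X l) {ν : ℝ}
    (hY : ∀ Y ⊆ X, Free c Y T → (Y.card : ℝ) ≤ ν) : (X.card : ℝ) ≤ ν * (l : ℝ) ^ T.card := by
  obtain ⟨φ, h0, h1, -⟩ := exists_label h
  have := weighted h0 h1 (fun _ _ => 1) (fun _ _ => zero_le_one) ν T X Subset.rfl hY
  simpa using this

/-- Counting by the value of a colour. -/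
theorem card_le_of_fibers {Z P : Finset ℕ} (f : ℕ → ℕ) (hf : ∀ z ∈ Z, f z ∈ P) {x : ℝ}
    (hx : ∀ a ∈ P, ((Z.filter fun z => f z = a).card : ℝ) ≤ x) :
    (Z.card : ℝ) ≤ P.card * x := by
  classical
  rw [card_eq_sum_card_fiberwise (f := f) (t := P) (fun z hz => hf z hz)]
  push_cast
  calc ∑ a ∈ P, ((Z.filter fun z => f z = a).card : ℝ) ≤ ∑ _a ∈ P, x := sum_le_sum hx
    _ = P.card * x := by simp

end Pool.Agent.P.MP_f298ee_co
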