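import Pool.Agent.P.MP_f298ee_co.Basic

/-!
The entropy step and the nested groups of colours.
-/

namespace Pool.Agent.P.MP_f298ee_co

open Finset Real

theorem key_ineq {l y : ℝ} (hl : 2 ≤ l) (hy0 : 0 < y) (hyl : y ≤ log l) :
    y ^ 2 / (50 * log l) ≤ y * (1 - (1 - 1 / l) * exp (-y)) - log (1 - 1 / l + exp y / l) := by
  have hl0 : 0 < l := by linarith
  have hL : 0.69 < log l := lt_of_lt_of_le (by have := log_two_gt_d9; linarith)
    (log_le_log (by norm_num) hl)
  have hE : 0 < exp (-y) := exp_pos _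
  have hE1 : exp (-y) * exp y = 1 := by rw [← exp_add]; simp
  have hEle : exp (-y) ≤ 1 := exp_le_one_iff.2 (by linarith)
  have hil : 1 / l ≤ 1 / 2 := one_div_le_one_div_of_le (by norm_num) hl
  have hil0 : 0 < 1 / l := by positivity
  set ρ := 1 - 1 / l with hρ
  have hρ1 : 1 / 2 ≤ ρ := by linarith
  have hρ2 : ρ ≤ 1 := by linarith
  have hq : ρ + exp y / l = exp y * (ρ * exp (-y) + 1 / l) := by
    have : exp y * (ρ * exp (-y)) = ρ := by
      rw [mul_left_comm, mul_comm (exp y), hE1, mul_one]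
    rw [mul_add, this]; ring
  have hpos : 0 < ρ * exp (-y) + 1 / l := by positivity
  rw [hq, log_mul (exp_pos y).ne' hpos.ne', log_exp]
  rcases le_total y 3 with h3 | h3
  · have h1 : log (ρ * exp (-y) + 1 / l) ≤ ρ * exp (-y) + 1 / l - 1 := log_le_sub_one_of_pos hpos
    have h2 : 1 + y + y ^ 2 / 2 ≤ exp y := by
      have := quadratic_le_exp_of_nonneg hy0.le
      linarith
    have h4 : (1 + y) * exp (-y) ≤ 1 - y ^ 2 / 17 := by
      have h5 : (1 + y) ≤ (1 - y ^ 2 / 17) * exp y := by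
        have h6 : 0 ≤ 1 - y ^ 2 / 17 := by nlinarith
        have h7 : (1 + y) ≤ (1 - y ^ 2 / 17) * (1 + y + y ^ 2 / 2) := by
          have : y ^ 2 ≤ 9 := by nlinarith
          have h8 : 1 + y + y ^ 2 / 2 ≤ 17 / 2 := by linarith
          have h9 : y ^ 2 / 17 * (1 + y + y ^ 2 / 2) ≤ y ^ 2 / 17 * (17 / 2) :=
            mul_le_mul_of_nonneg_left h8 (by positivity)
          nlinarith
        exact h7.trans (mul_le_mul_of_nonneg_left h2 h6)
      calc (1 + y) * exp (-y) ≤ (1 - y ^ 2 / 17) * exp y * exp (-y) :=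
            mul_le_mul_of_nonneg_right h5 hE.le
        _ = 1 - y ^ 2 / 17 := by rw [mul_assoc, mul_comm (exp y), hE1, mul_one]
    have h10 : y ^ 2 / (50 * log l) ≤ y ^ 2 / 34 :=
      div_le_div_of_nonneg_left (by positivity) (by norm_num) (by linarith)
    have h11 : ρ * (y ^ 2 / 17) ≤ ρ * (1 - (1 + y) * exp (-y)) :=
      mul_le_mul_of_nonneg_left (by linarith) (by linarith)
    have h12 : 1 / 2 * (y ^ 2 / 17) ≤ ρ * (y ^ 2 / 17) :=
      mul_le_mul_of_nonneg_right hρ1 (by positivity)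
    have h13 : 1 / l = 1 - ρ := by rw [hρ]; ring
    rw [h13] at h1 ⊢
    nlinarith
  · have h1 : 1 / l ≤ exp (-y) := by
      rw [exp_neg, one_div]
      refine inv_anti₀ (exp_pos y) ?_
      calc exp y ≤ exp (log l) := exp_le_exp.2 hyl
        _ = l := exp_log hl0
    have h2 : ρ * exp (-y) + 1 / l ≤ 2 * exp (-y) := by nlinarith
    have h4 : log (ρ * exp (-y) + 1 / l) ≤ log 2 + -y := by
      calc log (ρ * exp (-y) + 1 / l) ≤ log (2 * exp (-y)) := log_le_log hpos h2
        _ = log 2 + -y := by rw [log_mul (by norm_num) hE.ne', log_exp]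
    have h5 : y * exp (-y) ≤ 1 := by
      have : y ≤ exp y := by linarith [add_one_le_exp y]
      calc y * exp (-y) ≤ exp y * exp (-y) := mul_le_mul_of_nonneg_right this hE.le
        _ = 1 := by rw [mul_comm, hE1]
    have h6 : y ^ 2 / (50 * log l) ≤ y / 50 := by
      rw [div_le_div_iff₀ (by linarith) (by norm_num)]
      nlinarith
    have h7 : log 2 < 1 := by have := log_two_lt_d9; linarith
    have h8 : ρ * (y * exp (-y)) ≤ 1 := by
      have : 0 ≤ y * exp (-y) := by positivity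
      nlinarith
    nlinarith

variable {c : ℕ → ℕ → ℕ}

/-- Entropy step. -/
theorem step {X T U : Finset ℕ} {l σ γ : ℕ} (hl : 2 ≤ l) (hγ : 1 ≤ γ) (h : NoFl c X l) {ν : ℝ}
    (hν : 0 < ν) (hY : ∀ Y ⊆ X, Free c Y T → (Y.card : ℝ) ≤ ν) (hU : U ⊆ T)
    (hX : ν * (l : ℝ) ^ T.card ≤ X.card * (l : ℝ) ^ σ) (hm : 50 * σ * γ ^ 2 < U.card) :
    ∃ a ∈ U, ∃ X1 ⊆ X, Free c X1 {a} ∧ (∀ v ∈ X1, ∃ u ∈ X, u < v ∧ c u v = a) ∧
      (X.card : ℝ) ≤ X1.card * (l * exp (log l / γ)) := by
  classical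
  by_contra hcon
  push Not at hcon
  obtain ⟨φ, h0, h1, h2⟩ := exists_label h
  have hl' : (2 : ℝ) ≤ l := by exact_mod_cast hl
  have hl0 : (0 : ℝ) < l := by linarith
  have hγ' : (1 : ℝ) ≤ γ := by exact_mod_cast hγ
  have hL : 0 < log (l : ℝ) := log_pos (by linarith)
  set y := log (l : ℝ) / γ with hy
  have hy0 : 0 < y := by positivity
  have hyl : y ≤ log l := div_le_self hL.le hγ'
  have hN : (0 : ℝ) < X.card := by
    have : 0 < ν * (l : ℝ) ^ T.card := by positivity
    have h3 : (0 : ℝ) < X.card * (l : ℝ) ^ σ := lt_of_lt_of_le this hX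
    exact (mul_pos_iff_of_pos_right (by positivity)).1 h3
  set p := 1 - (1 - 1 / (l : ℝ)) * exp (-y) with hp
  have hzero : ∀ a ∈ U, X.card * p ≤ ((X.filter fun v => φ v a = 0).card : ℝ) := by
    intro a ha
    have hx : ∀ x ∈ Ico 1 l, (((X.filter fun v => φ v a ≠ 0).filter fun v => φ v a = x).card : ℝ)
        ≤ X.card / (l * exp y) := by
      intro x hx
      have hx1 := (mem_Ico.1 hx).1
      rw [le_div_iff₀ (by positivity)]
      refine (hcon a ha _ ((filter_subset _ _).trans (filter_subset _ _)) ?_ ?_).le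
      · intro u hu v hv huv hm
        rw [mem_singleton] at hm
        have hu' := mem_filter.1 hu
        have hv' := mem_filter.1 hv
        have := h1 u (mem_filter.1 hu'.1).1 v (mem_filter.1 hv'.1).1 huv
        rw [hm, hu'.2, hv'.2] at this
        exact lt_irrefl _ this
      · intro v hv
        have hv' := mem_filter.1 (mem_filter.1 hv).1
        exact h2 v hv'.1 a hv'.2
    have h3 := card_le_of_fibers (Z := X.filter fun v => φ v a ≠ 0) (P := Ico 1 l)
      (fun v => φ v a) (fun z hz => by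
        have hz' := mem_filter.1 hz
        exact mem_Ico.2 ⟨Nat.one_le_iff_ne_zero.2 hz'.2, h0 z hz'.1 a⟩) hx
    have h4 : ((X.filter fun v => φ v a = 0).card : ℝ) + (X.filter fun v => φ v a ≠ 0).card
        = X.card := by
      exact_mod_cast card_filter_add_card_filter_not (s := X) (fun v => φ v a = 0)
    have h5 : ((Ico 1 l).card : ℝ) = l - 1 := by
      rw [Nat.card_Ico, Nat.cast_sub (by omega)]; simp
    rw [h5] at h3
    have h6 : ((l : ℝ) - 1) * (X.card / (l * exp y)) = X.card * ((1 - 1 / l) * exp (-y)) := by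
      rw [exp_neg]; field_simp
    rw [h6] at h3
    rw [hp]; linarith
  set z : ℕ → ℝ := fun v => ∑ a ∈ T, if a ∈ U ∧ φ v a = 0 then y else 0 with hz
  set q := 1 - 1 / (l : ℝ) + exp y / l with hq
  have hq0 : 0 < q := by
    have : 1 / (l : ℝ) ≤ 1 / 2 := one_div_le_one_div_of_le (by norm_num) hl'
    have : 0 < exp y / l := by positivity
    rw [hq]; linarith
  have hw := weighted h0 h1 (fun a x => exp (if a ∈ U ∧ x = 0 then y else 0))
    (fun _ _ => (exp_pos _).le) ν T X Subset.rfl hY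
  have e1 : ∀ v, ∏ a ∈ T, exp (if a ∈ U ∧ φ v a = 0 then y else 0) = exp (z v) := by
    intro v; rw [hz, exp_sum]
  have e2 : ∀ a, ∑ x ∈ range l, exp (if a ∈ U ∧ x = 0 then y else 0)
      = l * (if a ∈ U then q else 1) := by
    intro a
    by_cases ha : a ∈ U
    · obtain ⟨l', rfl⟩ : ∃ l', l = l' + 1 := ⟨l - 1, by omega⟩
      rw [sum_range_succ']
      simp only [ha, true_and, Nat.succ_ne_zero, if_false, exp_zero, if_true, sum_const,
        card_range, nsmul_eq_mul, mul_one]
      rw [hq]; push_cast at hl0 ⊢; field_simp; ring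
    · simp [ha]
  have e3 : ∏ a ∈ T, ((l : ℝ) * (if a ∈ U then q else 1)) = (l : ℝ) ^ T.card * q ^ U.card := by
    rw [prod_mul_distrib, prod_const, prod_ite, prod_const, prod_const_one, mul_one,
      filter_mem_eq_inter, inter_eq_right.2 hU]
  simp only [e1, e2, e3] at hw
  have hsum : X.card * (y * U.card * p) ≤ ∑ v ∈ X, z v := by
    rw [hz, sum_comm]
    calc X.card * (y * U.card * p) = ∑ _a ∈ U, y * (X.card * p) := by
          rw [sum_const, nsmul_eq_mul]; ring
      _ ≤ ∑ a ∈ U, ∑ v ∈ X, (if a ∈ U ∧ φ v a = 0 then y else 0) := by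
          refine sum_le_sum fun a ha => ?_
          simp only [ha, true_and]
          rw [← sum_filter, sum_const, nsmul_eq_mul, mul_comm _ y]
          exact mul_le_mul_of_nonneg_left (hzero a ha) hy0.le
      _ ≤ _ := sum_le_sum_of_subset_of_nonneg hU fun a _ _ =>
          sum_nonneg fun v _ => by split_ifs <;> linarith
  set zb := y * U.card * p with hzb
  have hJ : X.card * exp zb ≤ ∑ v ∈ X, exp (z v) := by
    have h3 : ∀ v ∈ X, exp zb * (z v - zb + 1) ≤ exp (z v) := by
      intro v _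
      calc exp zb * (z v - zb + 1) ≤ exp zb * exp (z v - zb) :=
            mul_le_mul_of_nonneg_left (add_one_le_exp _) (exp_pos _).le
        _ = exp (z v) := by rw [← exp_add]; ring_nf
    refine le_trans ?_ (sum_le_sum h3)
    rw [← mul_sum, sum_add_distrib, sum_sub_distrib, sum_const, sum_const, nsmul_eq_mul,
      nsmul_eq_mul, mul_comm]
    exact mul_le_mul_of_nonneg_left (by linarith) (exp_pos _).le
  have h7 : X.card * exp zb ≤ X.card * ((l : ℝ) ^ σ * q ^ U.card) := by
    calc X.card * exp zb ≤ ν * ((l : ℝ) ^ T.card * q ^ U.card) := hJ.trans hw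
      _ = ν * (l : ℝ) ^ T.card * q ^ U.card := by ring
      _ ≤ X.card * (l : ℝ) ^ σ * q ^ U.card := mul_le_mul_of_nonneg_right hX (by positivity)
      _ = _ := by ring
  have h8 : zb ≤ σ * log l + U.card * log q := by
    have := log_le_log (exp_pos _) (le_of_mul_le_mul_left h7 hN)
    rwa [log_exp, log_mul (by positivity) (by positivity), log_pow, log_pow] at this
  have h9 := key_ineq hl' hy0 hyl
  rw [← hp, ← hq] at h9
  have h10 : y ^ 2 / (50 * log l) = log l / (50 * γ ^ 2) := by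
    rw [hy]; field_simp
  rw [h10] at h9
  have hm' : (50 : ℝ) * σ * γ ^ 2 < U.card := by exact_mod_cast hm
  have h11 : σ * log l < U.card * (log l / (50 * γ ^ 2)) := by
    rw [mul_div_assoc', lt_div_iff₀ (by positivity)]
    nlinarith
  have h12 := mul_le_mul_of_nonneg_left h9 (Nat.cast_nonneg (α := ℝ) U.card)
  rw [hzb] at h8
  nlinarith

/-- Nested groups of colours. -/
theorem nest {W T U : Finset ℕ} {l σ γ : ℕ} (hl : 2 ≤ l) (hγ : 1 ≤ γ) (h : NoFl c W l) {ν : ℝ}
    (hν : 0 < ν) (hY : ∀ Y ⊆ W, Free c Y T → (Y.card : ℝ) ≤ ν) (hU : U ⊆ T)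
    (hW : ν * (l : ℝ) ^ T.card * l ≤ W.card * (l : ℝ) ^ σ) :
    ∀ i ≤ γ, 50 * σ * γ ^ 2 + i ≤ U.card → ∃ Γ ⊆ U, Γ.card = i ∧ ∃ X ⊆ W, Free c X Γ ∧
      (W.card : ℝ) ≤ X.card * (l * exp (log l / γ)) ^ i ∧
      ∀ v ∈ X, ∀ A ⊆ Γ, ∃ s, Path c W s v A := by
  classical
  have hl' : (2 : ℝ) ≤ l := by exact_mod_cast hl
  have hl0 : (0 : ℝ) < l := by linarith
  have hγ' : (1 : ℝ) ≤ γ := by exact_mod_cast hγ
  intro i
  induction i with
  | zero =>
    intro _ _
    refine ⟨∅, empty_subset _, rfl, W, Subset.rfl, fun _ _ _ _ _ => notMem_empty _, by simp,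
      fun v hv A hA => ⟨v, ?_⟩⟩
    rw [subset_empty.1 hA]
    exact Path.refl hv
  | succ i ih =>
    intro hi hm
    obtain ⟨Γ, hΓU, hΓ, X, hXW, hfree, hcard, hpath⟩ := ih (by omega) (by omega)
    have hΓT : Γ ⊆ T := hΓU.trans hU
    have hT' : (T \ Γ).card + i = T.card := by rw [← hΓ]; exact card_sdiff_add_card_eq_card hΓT
    have hU' : (U \ Γ).card + i = U.card := by rw [← hΓ]; exact card_sdiff_add_card_eq_card hΓU
    have hexp : exp (log (l : ℝ) / γ) ^ i ≤ l := by
      rw [← exp_nat_mul]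
      calc exp (i * (log (l : ℝ) / γ)) ≤ exp (log l) := by
            refine exp_le_exp.2 ?_
            have hL : 0 < log (l : ℝ) := log_pos (by linarith)
            have : (i : ℝ) ≤ γ := by exact_mod_cast (by omega : i ≤ γ)
            rw [mul_div_assoc', div_le_iff₀ (by linarith)]
            nlinarith
        _ = l := exp_log hl0
    have hX : ν * (l : ℝ) ^ (T \ Γ).card ≤ X.card * (l : ℝ) ^ σ := by
      have h1 : ν * (l : ℝ) ^ (T \ Γ).card * ((l : ℝ) ^ i * l)
          ≤ X.card * (l : ℝ) ^ σ * ((l : ℝ) ^ i * l) := by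
        calc ν * (l : ℝ) ^ (T \ Γ).card * ((l : ℝ) ^ i * l) = ν * (l : ℝ) ^ T.card * l := by
              rw [← hT', pow_add]; ring
          _ ≤ W.card * (l : ℝ) ^ σ := hW
          _ ≤ X.card * (l * exp (log l / γ)) ^ i * (l : ℝ) ^ σ :=
              mul_le_mul_of_nonneg_right hcard (by positivity)
          _ = X.card * (l : ℝ) ^ σ * ((l : ℝ) ^ i * exp (log l / γ) ^ i) := by
              rw [mul_pow]; ring
          _ ≤ _ := by gcongr
      exact le_of_mul_le_mul_right h1 (by positivity)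
    obtain ⟨a, ha, X1, hX1, hf1, hin, hc1⟩ := step (T := T \ Γ) (U := U \ Γ) (σ := σ) hl hγ
      (h.mono hXW) hν (fun Y hYX hf => hY Y (hYX.trans hXW) (by
        have := (hfree.mono hYX).union hf
        rwa [union_sdiff_of_subset hΓT] at this)) (sdiff_subset_sdiff hU Subset.rfl) hX
      (by omega)
    have ha' := mem_sdiff.1 ha
    refine ⟨insert a Γ, insert_subset ha'.1 hΓU, by rw [card_insert_of_notMem ha'.2, hΓ], X1,
      hX1.trans hXW, ?_, ?_, fun v hv A hA => ?_⟩
    · have := hf1.union (hfree.mono hX1)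
      rwa [← insert_eq] at this
    · calc (W.card : ℝ) ≤ X.card * (l * exp (log l / γ)) ^ i := hcard
        _ ≤ X1.card * (l * exp (log l / γ)) * (l * exp (log l / γ)) ^ i :=
            mul_le_mul_of_nonneg_right hc1 (by positivity)
        _ = _ := by ring
    · by_cases haA : a ∈ A
      · obtain ⟨u, hu, huv, hc⟩ := hin v hv
        obtain ⟨s, hs⟩ := hpath u hu (A.erase a) (subset_insert_iff.1 hA)
        have := Path.snoc hs (hXW (hX1 hv)) huv (by rw [hc]; exact notMem_erase _ _)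
        rw [hc, insert_erase haA] at this
        exact ⟨s, this⟩
      · exact hpath v (hX1 hv) A ((subset_insert_iff_of_notMem haA).1 hA)

end Pool.Agent.P.MP_f298ee_co
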