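import Pool.Agent.P.MP_f298ee_co.Main

/-!
Choice of parameters, and extraction of explicit sequences.
-/

namespace Pool.Agent.P.MP_f298ee_co

open Finset Real Filter

theorem exists_k0 {ε : ℝ} (hε : 0 < ε) : ∃ k0 : ℕ, ∀ k : ℕ, k0 ≤ k →
    6592 * ((2 * Nat.log 2 k + 12 : ℕ) : ℝ) ^ 3 ≤ (k : ℝ) ^ ε := by
  have h1 : Tendsto (fun k : ℕ => (k : ℝ) ^ (ε / 2)) atTop atTop :=
    (tendsto_rpow_atTop (by linarith)).comp tendsto_natCast_atTop_atTop
  obtain ⟨k0, hk0⟩ := eventually_atTop.1 (h1.eventually_ge_atTop (6592 * (18 / ε + 12) ^ 3))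
  refine ⟨max k0 1, fun k hk => ?_⟩
  have hk1 : 1 ≤ k := le_trans (le_max_right _ _) hk
  have hk' : (1 : ℝ) ≤ k := by exact_mod_cast hk1
  have h2 := hk0 k (le_trans (le_max_left _ _) hk)
  have h3 : (Nat.log 2 k : ℝ) * log 2 ≤ log k := by
    rw [← log_pow]
    refine log_le_log (by positivity) ?_
    exact_mod_cast Nat.pow_log_le_self 2 (by omega : k ≠ 0)
  have h4 : log (k : ℝ) ≤ (k : ℝ) ^ (ε / 6) / (ε / 6) := log_le_rpow_div (by linarith) (by linarith)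
  have h5 : (1 : ℝ) ≤ (k : ℝ) ^ (ε / 6) := one_le_rpow hk' (by linarith)
  have h6 : ((2 * Nat.log 2 k + 12 : ℕ) : ℝ) ≤ (18 / ε + 12) * (k : ℝ) ^ (ε / 6) := by
    push_cast
    have h7 := log_two_gt_d9
    have h8 : (0 : ℝ) ≤ Nat.log 2 k := by positivity
    have h9 : 2 * (Nat.log 2 k : ℝ) ≤ 3 * log k := by nlinarith
    have h10 : (k : ℝ) ^ (ε / 6) / (ε / 6) = 6 / ε * (k : ℝ) ^ (ε / 6) := by field_simp
    have h11 : (18 / ε + 12) * (k : ℝ) ^ (ε / 6)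
        = 3 * (6 / ε * (k : ℝ) ^ (ε / 6)) + 12 * (k : ℝ) ^ (ε / 6) := by ring
    linarith
  have h7 : ((k : ℝ) ^ (ε / 6)) ^ 3 = (k : ℝ) ^ (ε / 2) := by
    rw [← rpow_natCast, ← rpow_mul (by linarith)]; congr 1; push_cast; ring
  have h8 : (k : ℝ) ^ ε = (k : ℝ) ^ (ε / 2) * (k : ℝ) ^ (ε / 2) := by
    rw [← rpow_add (by linarith)]; congr 1; ring
  calc 6592 * ((2 * Nat.log 2 k + 12 : ℕ) : ℝ) ^ 3
      ≤ 6592 * ((18 / ε + 12) * (k : ℝ) ^ (ε / 6)) ^ 3 := by gcongr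
    _ = 6592 * (18 / ε + 12) ^ 3 * (k : ℝ) ^ (ε / 2) := by rw [mul_pow, h7]; ring
    _ ≤ (k : ℝ) ^ (ε / 2) * (k : ℝ) ^ (ε / 2) := by gcongr
    _ = _ := h8.symm

theorem bd_one {k : ℕ} {x : ℝ} (hx : 1 ≤ x) : Bd 1 k x := by
  intro c V hF _
  have : V.card ≤ 1 := by
    refine card_le_one.2 fun a ha b hb => ?_
    by_contra hne
    rcases lt_or_gt_of_ne hne with h | h
    · have := hF _ _ _ (Fl.succ (Fl.zero ha) hb h rfl); omega
    · have := hF _ _ _ (Fl.succ (Fl.zero hb) ha h rfl); omega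
  have : (V.card : ℝ) ≤ 1 := by exact_mod_cast this
  simp; linarith

theorem bd_small {ε : ℝ} (hε : 0 < ε) (hε3 : ε ≤ 1 / 3) : ∃ C : ℝ, 1 ≤ C ∧ ∀ l k : ℕ, 1 ≤ l →
    1 ≤ k → Bd l k (C * (k : ℝ) ^ (2 / 3 + ε)) := by
  obtain ⟨k0, hk0⟩ := exists_k0 hε
  have hC : (1 : ℝ) ≤ (k0 + 1).factorial := by exact_mod_cast Nat.factorial_pos _
  refine ⟨(k0 + 1).factorial, hC, fun l k hl => ?_⟩
  have hθ : 0 < 2 / 3 + ε := by linarith
  have hone : ∀ j : ℕ, 1 ≤ j → (1 : ℝ) ≤ (j : ℝ) ^ (2 / 3 + ε) := fun j hj =>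
    one_le_rpow (by exact_mod_cast hj) hθ.le
  rcases eq_or_lt_of_le hl with rfl | hl2
  · exact fun hk => bd_one (one_le_mul_of_one_le_of_one_le hC (hone k hk))
  induction k using Nat.strong_induction_on with
  | _ k ih =>
  intro hk
  rcases lt_or_ge k k0 with hlt | hge
  · obtain ⟨k', rfl⟩ : ∃ k', k = k' + 1 := ⟨k - 1, by omega⟩
    refine (Bd.base hl k').mono ?_
    have h1 : (((k' + 2).factorial : ℕ) : ℝ) ≤ (k0 + 1).factorial := by
      exact_mod_cast Nat.factorial_le (by omega)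
    have h2 := hone _ hk
    nlinarith
  have hJ := hk0 k hge
  set J := 2 * Nat.log 2 k + 12 with hJdef
  have hk' : (1 : ℝ) ≤ k := by exact_mod_cast hk
  set t : ℝ := (k : ℝ) ^ (1 / 3 : ℝ) with ht
  have ht3 : t ^ 3 = k := by
    rw [ht, ← rpow_natCast, ← rpow_mul (by linarith)]; norm_num
  have hJ1 : (1 : ℝ) ≤ J := by exact_mod_cast (by omega : 1 ≤ J)
  have hJ3 : (J : ℝ) ≤ (J : ℝ) ^ 3 := le_self_pow₀ hJ1 (by norm_num)
  have hεt : (k : ℝ) ^ ε ≤ t := rpow_le_rpow_of_exponent_le hk' hε3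
  have htJ : 6592 * (J : ℝ) ≤ t := by linarith
  have ht1 : 6592 ≤ t := by linarith
  set γ := ⌈t⌉₊ with hγ
  have hγ1 : t ≤ γ := Nat.le_ceil t
  have hγ2 : (γ : ℝ) ≤ 2 * t := by
    have := Nat.ceil_lt_add_one (by linarith : 0 ≤ t)
    linarith
  have hγ3 : 1 ≤ γ := by
    have : (1 : ℝ) ≤ γ := by linarith
    exact_mod_cast this
  have hkJ : γ + J < k := by
    have : (γ : ℝ) + J < k := by
      rw [← ht3]
      have : 4 ≤ t ^ 2 := by nlinarith
      nlinarith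
    exact_mod_cast this
  have hl' : (2 : ℝ) ≤ l := by exact_mod_cast hl2
  refine Bd.step (J := J) (γ := γ) (β := (k0 + 1).factorial * (J : ℝ) ^ (2 / 3 + ε)) hl2 hγ3
    (one_le_mul_of_one_le_of_one_le hC (hone J (by omega)))
    (one_le_mul_of_one_le_of_one_le hC (hone k hk))
    (fun j hj hjJ => (ih j (by omega) hj).mono ?_) (fun j hj hjk => (ih j hjk hj).mono ?_) ?_ hkJ
    (by omega) ?_
  · have : (j : ℝ) ≤ J := by exact_mod_cast hjJ
    gcongr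
  · have : (j : ℝ) ≤ k := by exact_mod_cast hjk.le
    gcongr
  · have h1 : (k : ℝ) ≤ 2 ^ (Nat.log 2 k + 1) := by
      exact_mod_cast (Nat.lt_pow_succ_log_self (by norm_num : 1 < 2) k).le
    have h2 : 256 * (k : ℝ) ^ 2 ≤ 2 ^ (2 * Nat.log 2 k + 10) := by
      calc 256 * (k : ℝ) ^ 2 ≤ 256 * (2 ^ (Nat.log 2 k + 1)) ^ 2 := by gcongr
        _ = 2 ^ (2 * Nat.log 2 k + 10) := by ring
    calc 256 * (k : ℝ) ^ 2 * (l : ℝ) ^ 2 ≤ (l : ℝ) ^ (2 * Nat.log 2 k + 10) * (l : ℝ) ^ 2 := by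
          refine mul_le_mul_of_nonneg_right (h2.trans ?_) (by positivity)
          gcongr
      _ = (l : ℝ) ^ J := by rw [← pow_add]
  · have h1 : (J : ℝ) ^ (2 / 3 + ε) ≤ J := by
      calc (J : ℝ) ^ (2 / 3 + ε) ≤ (J : ℝ) ^ (1 : ℝ) :=
            rpow_le_rpow_of_exponent_le hJ1 (by linarith)
        _ = J := rpow_one _
    have h2 : (k : ℝ) ^ (2 / 3 + ε) = t ^ 2 * (k : ℝ) ^ ε := by
      rw [rpow_add (by linarith), ht, ← rpow_natCast, ← rpow_mul (by linarith)]; norm_num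
    have ht0 : 0 < t := by linarith
    have h3 : (2 * k / γ : ℝ) ≤ 2 * t ^ 2 := by
      rw [div_le_iff₀ (by linarith), ← ht3]
      have : 0 < t ^ 2 := by positivity
      nlinarith
    have h4 : (γ : ℝ) ^ 2 ≤ 4 * t ^ 2 := by
      have : (0 : ℝ) ≤ γ := by positivity
      nlinarith
    have h5 : 50 * (J : ℝ) * (γ : ℝ) ^ 2 ≤ 50 * J * (4 * t ^ 2) := by gcongr
    have h6 : 1 ≤ t ^ 2 := by nlinarith
    have h7 : t ≤ t ^ 2 := by nlinarith
    have h8 : t ^ 2 ≤ J * t ^ 2 := by nlinarith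
    have h9 : (J : ℝ) ≤ J * t ^ 2 := by nlinarith
    have h10 : (2 * k / γ + 50 * J * γ ^ 2 + γ + J + 1 : ℝ) ≤ 206 * (J * t ^ 2) := by linarith
    calc 32 * (J : ℝ) * (2 * k / γ + 50 * J * γ ^ 2 + γ + J + 1)
          * ((k0 + 1).factorial * (J : ℝ) ^ (2 / 3 + ε))
        ≤ 32 * J * (206 * (J * t ^ 2)) * ((k0 + 1).factorial * J) := by gcongr
      _ = (k0 + 1).factorial * (t ^ 2 * (6592 * (J : ℝ) ^ 3)) := by ring
      _ ≤ (k0 + 1).factorial * (t ^ 2 * (k : ℝ) ^ ε) := by gcongr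
      _ = _ := by rw [h2]

theorem bd_all {ε : ℝ} (hε : 0 < ε) : ∃ C : ℝ, 1 ≤ C ∧ ∀ l k : ℕ, 1 ≤ l →
    1 ≤ k → Bd l k (C * (k : ℝ) ^ (2 / 3 + ε)) := by
  obtain ⟨C, hC, h⟩ := bd_small (ε := min ε (1 / 3)) (lt_min hε (by norm_num)) (min_le_right _ _)
  refine ⟨C, hC, fun l k hl hk => (h l k hl hk).mono ?_⟩
  refine mul_le_mul_of_nonneg_left (rpow_le_rpow_of_exponent_le (by exact_mod_cast hk) ?_)
    (by linarith)
  linarith [min_le_left ε (1 / 3)]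

variable {c : ℕ → ℕ → ℕ} {V : Finset ℕ}

theorem Fl.seq {a v j : ℕ} (p : Fl c V a v j) : ∃ x : ℕ → ℕ, x j = v ∧ (∀ i ≤ j, x i ∈ V) ∧
    ∀ i < j, x i < x (i + 1) ∧ c (x i) (x (i + 1)) = a := by
  induction p with
  | @zero v hv => exact ⟨fun _ => v, rfl, fun _ _ => hv, fun i hi => absurd hi (by omega)⟩
  | @succ u v j _ hv huv hc ih =>
    obtain ⟨x, h1, h2, h3⟩ := ih
    refine ⟨fun i => if i ≤ j then x i else v, by simp, fun i _ => ?_, fun i hi => ?_⟩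
    · dsimp only
      split_ifs with h
      · exact h2 i h
      · exact hv
    · dsimp only
      rw [if_pos (by omega : i ≤ j)]
      split_ifs with h
      · exact h3 i (by omega)
      · rw [show i = j by omega, h1]; exact ⟨huv, hc⟩

theorem Path.seq {s v : ℕ} {A : Finset ℕ} (p : Path c V s v A) : ∃ x : ℕ → ℕ, x A.card = v ∧
    (∀ i ≤ A.card, x i ∈ V) ∧ (∀ i < A.card, x i < x (i + 1) ∧ c (x i) (x (i + 1)) ∈ A) ∧
    ∀ i < A.card, ∀ i' < i, c (x i') (x (i' + 1)) ≠ c (x i) (x (i + 1)) := by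
  induction p with
  | refl hs =>
    exact ⟨fun _ => s, rfl, fun _ _ => hs, fun i hi => absurd hi (by simp),
      fun i hi => absurd hi (by simp)⟩
  | @snoc u v A _ hv huv hc ih =>
    obtain ⟨x, h1, h2, h3, h4⟩ := ih
    rw [card_insert_of_notMem hc]
    refine ⟨fun i => if i ≤ A.card then x i else v, by simp, fun i _ => ?_, fun i hi => ?_,
      fun i hi i' hi' => ?_⟩
    · dsimp only
      split_ifs with h
      · exact h2 i h
      · exact hv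
    · dsimp only
      rw [if_pos (by omega : i ≤ A.card)]
      split_ifs with h
      · exact ⟨(h3 i (by omega)).1, mem_insert_of_mem (h3 i (by omega)).2⟩
      · rw [show i = A.card by omega, h1]; exact ⟨huv, mem_insert_self _ _⟩
    · dsimp only
      rw [if_pos (by omega : i ≤ A.card), if_pos (by omega : i' ≤ A.card),
        if_pos (by omega : i' + 1 ≤ A.card)]
      split_ifs with h
      · exact h4 i (by omega) i' hi'
      · rw [show i = A.card by omega, h1]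
        intro he
        exact hc (he ▸ (h3 i' (by omega)).2)

end Pool.Agent.P.MP_f298ee_co
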