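import Pool.Agent.P.MP_f298ee_co.Tools

/-!
The main recursion.
-/

namespace Pool.Agent.P.MP_f298ee_co

open Finset Real

variable {c : ℕ → ℕ → ℕ} {V : Finset ℕ} {l k J γ : ℕ} {β : ℝ}

/-- Edges from a good vertex `u` with colours in a subset of the core palette `T`. -/
theorem group_bound (hl : 2 ≤ l) (hγ : 1 ≤ γ) (hF : NoFl c V l) (hR : NoRb c V k) (hβ0 : 0 ≤ β)
    (hβ : ∀ j, 1 ≤ j → j ≤ J → Bd l j β)
    (hH : ∀ X ⊆ V, NoRb c X (k - (γ + J)) → (X.card : ℝ) * (l : ℝ) ^ (γ + J) ≤ V.card)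
    (hJ : 256 * (k : ℝ) ^ 2 * (l : ℝ) ^ 2 ≤ (l : ℝ) ^ J) (hk : 1 ≤ k) (hV : 0 < V.card)
    {W T : Finset ℕ} (hWV : W ⊆ V) (hW : (V.card : ℝ) ≤ 64 * k * W.card)
    (hT : ∀ Y ⊆ W, Free c Y T → (Y.card : ℝ) * (l : ℝ) ^ T.card ≤ V.card)
    {u : ℕ} (huV : u ∈ V) (hWu : ∀ y ∈ W, y < u) (hu : Good c V k J u)
    {P : Finset ℕ} (hP : P.card ≤ k) (hPc : ∀ y ∈ W, c y u ∈ P) (N : ℕ) :
    ∀ U ⊆ T, U.card = N → ∀ Z ⊆ V, (∀ w ∈ Z, u < w ∧ c u w ∈ U) →
      (Z.card : ℝ) ≤ (2 * N / γ + (50 * J * γ ^ 2 + γ)) * (β * (l : ℝ) ^ (k - 1)) := by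
  classical
  have hl' : (2 : ℝ) ≤ l := by exact_mod_cast hl
  have hl0 : (0 : ℝ) < l := by linarith
  have hγ' : (1 : ℝ) ≤ γ := by exact_mod_cast hγ
  have hk' : (1 : ℝ) ≤ k := by exact_mod_cast hk
  have hV' : (0 : ℝ) < V.card := by exact_mod_cast hV
  have hb0 : 0 ≤ β * (l : ℝ) ^ (k - 1) := by positivity
  induction N using Nat.strong_induction_on with
  | _ N ih =>
  intro U hU hN Z hZV hZ
  rcases lt_or_ge U.card (50 * J * γ ^ 2 + γ) with hm | hm
  · refine (good_set hF hR hβ0 hβ hu hZV hZ).trans (mul_le_mul_of_nonneg_right ?_ hb0)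
    have h1 : (U.card : ℝ) ≤ 50 * J * γ ^ 2 + γ := by exact_mod_cast hm.le
    have h2 : (0 : ℝ) ≤ 2 * N / γ := by positivity
    linarith
  obtain ⟨Γ, hΓU, hΓ, X, hXW, hfree, hcard, hpath⟩ := nest (c := c) (W := W) (T := T) (U := U)
    (σ := J) hl hγ (hF.mono hWV) (ν := V.card / (l : ℝ) ^ T.card) (by positivity)
    (fun Y hY hf => by rw [le_div_iff₀ (by positivity)]; exact hT Y hY hf) hU (by
      rw [div_mul_cancel₀ _ (by positivity)]
      calc (V.card : ℝ) * l ≤ 64 * k * W.card * l := mul_le_mul_of_nonneg_right hW hl0.le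
        _ = W.card * (64 * k * l) := by ring
        _ ≤ W.card * (l : ℝ) ^ J := by
            refine mul_le_mul_of_nonneg_left (le_trans ?_ hJ) (by positivity)
            have : (1 : ℝ) ≤ k * l := by nlinarith
            nlinarith) γ le_rfl hm
  have hXV : X ⊆ V := hXW.trans hWV
  have hexp : ((l : ℝ) * exp (log l / γ)) ^ γ = (l : ℝ) ^ γ * l := by
    rw [mul_pow, ← exp_nat_mul, mul_div_cancel₀ _ (by positivity), exp_log hl0]
  rw [hexp] at hcard
  have hex : ∃ s t A, Path c X s t A ∧ c t u ∉ A ∧ k ≤ A.card + (γ + J) := by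
    by_contra hcon
    push Not at hcon
    have h1 := card_le_of_fibers (Z := X) (P := P) (fun y => c y u)
      (fun y hy => hPc y (hXW hy)) (x := V.card / (l : ℝ) ^ (γ + J) * l) fun e _ => by
        have := card_le_of_free (T := {e}) (hF.mono ((filter_subset (fun y => c y u = e) X).trans
          hXV)) (ν := V.card / (l : ℝ) ^ (γ + J)) fun Y hY hf => by
            rw [le_div_iff₀ (by positivity)]
            refine hH Y (hY.trans ((filter_subset _ _).trans hXV)) fun s t A p => ?_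
            have hd := p.disjoint_of_free hf
            have ht := (mem_filter.1 (hY p.end_mem)).2
            have := hcon s t A (p.mono (hY.trans (filter_subset _ _)))
              (fun hm => disjoint_left.1 hd hm (by rw [ht]; simp))
            omega
        simpa using this
    have hP' : (P.card : ℝ) ≤ k := by exact_mod_cast hP
    have h2 : (X.card : ℝ) ≤ k * (V.card / (l : ℝ) ^ (γ + J) * l) :=
      h1.trans (mul_le_mul_of_nonneg_right hP' (by positivity))
    have h3 : (V.card : ℝ) ≤ 64 * k * (k * (V.card / (l : ℝ) ^ (γ + J) * l) * ((l : ℝ) ^ γ * l)) :=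
      hW.trans (mul_le_mul_of_nonneg_left (hcard.trans
        (mul_le_mul_of_nonneg_right h2 (by positivity))) (by positivity))
    have h4 : 64 * k * (k * (V.card / (l : ℝ) ^ (γ + J) * l) * ((l : ℝ) ^ γ * l))
        = V.card * (64 * (k : ℝ) ^ 2 * (l : ℝ) ^ 2 / (l : ℝ) ^ J) := by
      rw [pow_add]; field_simp
    rw [h4] at h3
    have h5 : 64 * (k : ℝ) ^ 2 * (l : ℝ) ^ 2 / (l : ℝ) ^ J < 1 := by
      rw [div_lt_one (by positivity)]
      have : 0 < (k : ℝ) ^ 2 * (l : ℝ) ^ 2 := by positivity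
      linarith
    nlinarith
  obtain ⟨s, t, A, p, heA, hkA⟩ := hex
  set e := c t u with he
  have hAΓ : Disjoint A Γ := p.disjoint_of_free hfree
  have hZ1 : ((Z.filter fun w => c u w ∈ Γ.erase e).card : ℝ) ≤ β * (l : ℝ) ^ (k - 1) := by
    refine bundle (T := insert e (Γ ∪ A)) hF hR hβ0 hβ ((filter_subset _ _).trans hZV)
      (fun w hw => ?_) ?_
    · have hw' := mem_filter.1 hw
      have ha := mem_erase.1 hw'.2
      obtain ⟨s0, q⟩ := hpath s p.start_mem ((Γ.erase (c u w)).erase e)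
        ((erase_subset _ _).trans (erase_subset _ _))
      have q1 := (q.mono hWV).trans (p.mono hXV)
        (hAΓ.symm.mono_left ((erase_subset _ _).trans (erase_subset _ _)))
      have q2 := Path.snoc q1 huV (hWu t (hXW p.end_mem)) (by
        rw [← he, mem_union, not_or]; exact ⟨notMem_erase _ _, heA⟩)
      have q3 := Path.snoc q2 (hZV hw'.1) (hZ w hw'.1).1 (by
        rw [← he, mem_insert, mem_union, not_or, not_or]
        exact ⟨ha.1, fun hm => notMem_erase _ _ (mem_of_mem_erase hm),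
          fun hm => disjoint_left.1 hAΓ hm ha.2⟩)
      refine ⟨s0, ?_⟩
      convert q3 using 1
      rw [← he]
      ext x
      simp only [mem_insert, mem_union, mem_erase]
      constructor
      · rintro (h | h | h)
        · exact Or.inr (Or.inl h)
        · by_cases h1 : x = c u w
          · exact Or.inl h1
          · by_cases h2 : x = e
            · exact Or.inr (Or.inl h2)
            · exact Or.inr (Or.inr (Or.inl ⟨h2, h1, h⟩))
        · exact Or.inr (Or.inr (Or.inr h))
      · rintro (h | h | h | h)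
        · exact Or.inr (Or.inl (h ▸ ha.2))
        · exact Or.inl h
        · exact Or.inr (Or.inl h.2.2)
        · exact Or.inr (Or.inr h)
    · have h1 := card_le_card (subset_insert e (Γ ∪ A))
      rw [card_union_of_disjoint hAΓ.symm] at h1
      omega
  have hZ2 : ((Z.filter fun w => c u w = e).card : ℝ) ≤ β * (l : ℝ) ^ (k - 1) := by
    have := good_set (P := {e}) hF hR hβ0 hβ hu ((filter_subset (fun w => c u w = e) Z).trans hZV)
      fun w hw => ⟨(hZ w (mem_filter.1 hw).1).1, mem_singleton.2 (mem_filter.1 hw).2⟩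
    simpa using this
  have hU' : (U \ Γ).card + γ = N := by rw [← hΓ, ← hN]; exact card_sdiff_add_card_eq_card hΓU
  have hZ3 := ih (U \ Γ).card (by omega) (U \ Γ) (sdiff_subset.trans hU) rfl
    (Z.filter fun w => c u w ∈ U \ Γ) ((filter_subset _ _).trans hZV)
    fun w hw => ⟨(hZ w (mem_filter.1 hw).1).1, (mem_filter.1 hw).2⟩
  have hcov : Z ⊆ (Z.filter fun w => c u w ∈ Γ.erase e) ∪ (Z.filter fun w => c u w = e) ∪
      (Z.filter fun w => c u w ∈ U \ Γ) := by
    intro w hw
    simp only [mem_union, mem_filter, hw, true_and, mem_erase, mem_sdiff, (hZ w hw).2]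
    by_cases h1 : c u w ∈ Γ
    · by_cases h2 : c u w = e
      · exact Or.inl (Or.inr h2)
      · exact Or.inl (Or.inl ⟨h2, h1⟩)
    · exact Or.inr h1
  have h5 : (Z.card : ℝ) ≤ (Z.filter fun w => c u w ∈ Γ.erase e).card +
      (Z.filter fun w => c u w = e).card + (Z.filter fun w => c u w ∈ U \ Γ).card := by
    exact_mod_cast (card_le_card hcov).trans ((card_union_le _ _).trans
      (Nat.add_le_add_right (card_union_le _ _) _))
  have h6 : (2 * N / γ : ℝ) = 2 * ((U \ Γ).card : ℝ) / γ + 2 := by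
    rw [← hU']; push_cast; field_simp
  rw [h6]
  linarith

/-- The rounds argument. -/
theorem rounds (hR : NoRb c V k) {G T : Finset ℕ} (hGV : G ⊆ V) {B : ℝ} (hB0 : 0 ≤ B)
    (hB : ∀ u ∈ G, ∀ s S, Path c V s u S → T ⊆ S → ∀ Z ⊆ G, (∀ w ∈ Z, u < w ∧ c u w ∈ S) →
      (Z.card : ℝ) ≤ B) (d : ℕ) :
    ∀ u ∈ G, ∀ s S, Path c V s u S → T ⊆ S → k ≤ S.card + d → ∀ Y ⊆ G, (∀ w ∈ Y, u < w) →
      (Y.card : ℝ) ≤ d * (1 + B) := by
  classical
  induction d with
  | zero =>
    intro u _ s S p _ hk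
    have := hR _ _ _ p
    omega
  | succ d ih =>
    intro u hu s S p hTS hk Y hY hlt
    have h1 := hB u hu s S p hTS (Y.filter fun w => c u w ∈ S) ((filter_subset _ _).trans hY)
      fun w hw => ⟨hlt w (mem_filter.1 hw).1, (mem_filter.1 hw).2⟩
    have h2 : ((Y.filter fun w => c u w ∈ S).card : ℝ) + (Y.filter fun w => ¬ c u w ∈ S).card
        = Y.card := by
      exact_mod_cast card_filter_add_card_filter_not (s := Y) (fun w => c u w ∈ S)
    have h3 : ((Y.filter fun w => ¬ c u w ∈ S).card : ℝ) ≤ d * (1 + B) + 1 := by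
      rcases (Y.filter fun w => ¬ c u w ∈ S).eq_empty_or_nonempty with h | hne
      · rw [h]; simp; positivity
      have hm := Finset.min'_mem _ hne
      have hm' := mem_filter.1 hm
      have h4 := ih _ (hY hm'.1) s _ (Path.snoc p (hGV (hY hm'.1)) (hlt _ hm'.1) hm'.2)
        (hTS.trans (subset_insert _ _)) (by rw [card_insert_of_notMem hm'.2]; omega)
        ((Y.filter fun w => ¬ c u w ∈ S).erase (Finset.min' _ hne))
        ((erase_subset _ _).trans ((filter_subset _ _).trans hY)) fun w hw =>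
          lt_of_le_of_ne (Finset.min'_le _ w (mem_erase.1 hw).2) (Ne.symm (mem_erase.1 hw).1)
      have h5 : ((((Y.filter fun w => ¬ c u w ∈ S).erase (Finset.min' _ hne)).card : ℕ) : ℝ) + 1
          = (Y.filter fun w => ¬ c u w ∈ S).card := by
        exact_mod_cast card_erase_add_one hm
      linarith
    push_cast
    linarith

/-- The main estimate. -/
theorem main_bound (hl : 2 ≤ l) (hγ : 1 ≤ γ) (hF : NoFl c V l) (hR : NoRb c V k) (hβ1 : 1 ≤ β)
    (hβ : ∀ j, 1 ≤ j → j ≤ J → Bd l j β)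
    (hH : ∀ s, 1 ≤ s → s < k → ∀ X ⊆ V, NoRb c X (k - s) →
      (X.card : ℝ) * (l : ℝ) ^ s ≤ V.card)
    (hJ : 256 * (k : ℝ) ^ 2 * (l : ℝ) ^ 2 ≤ (l : ℝ) ^ J) (hk : γ + J < k) (hk3 : 3 ≤ k)
    (hn : (l : ℝ) ^ (k - 1) ≤ V.card) :
    (V.card : ℝ) ≤ 32 * J * (2 * k / γ + 50 * J * γ ^ 2 + γ + J + 1) * β * (l : ℝ) ^ (k - 1) := by
  classical
  have hl' : (2 : ℝ) ≤ l := by exact_mod_cast hl
  have hl0 : (0 : ℝ) < l := by linarith
  have hγ' : (1 : ℝ) ≤ γ := by exact_mod_cast hγ
  have hk' : (3 : ℝ) ≤ k := by exact_mod_cast hk3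
  have hβ0 : 0 ≤ β := by linarith
  have hJn : (l : ℝ) ^ J ≤ V.card := (pow_le_pow_right₀ (by linarith) (by omega)).trans hn
  have hV' : (0 : ℝ) < V.card := lt_of_lt_of_le (by positivity) hn
  have hV : 0 < V.card := by exact_mod_cast hV'
  have hn2 : 1024 * (k : ℝ) ^ 2 ≤ V.card := by
    have : (4 : ℝ) ≤ (l : ℝ) ^ 2 := by nlinarith
    have : 0 ≤ (k : ℝ) ^ 2 := by positivity
    nlinarith
  obtain ⟨S, hSV, hS, hout, hin⟩ := star hl hR (hH 2 (by norm_num) (by omega))
  have hbad := bad_card (J := J) hF hSV hout hin (ν := V.card / (l : ℝ) ^ (J + 1)) (by positivity)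
    (fun X hX h => by
      rw [le_div_iff₀ (by positivity)]
      exact hH (J + 1) (by omega) (by omega) X hX h)
    (filter_subset (fun u => ¬ Good c V k J u) S) fun u hu => (mem_filter.1 hu).2
  have hbad2 : 32 * ((S.filter fun u => ¬ Good c V k J u).card : ℝ) ≤ V.card := by
    set r : ℝ := V.card / (l : ℝ) ^ J with hr
    have hr1 : 1 ≤ r := by rw [hr, le_div_iff₀ (by positivity)]; linarith
    have e1 : (V.card : ℝ) / (l : ℝ) ^ (J + 1) * (l : ℝ) ^ 2 = r * l := by
      rw [hr, pow_succ]; field_simp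
    rw [e1] at hbad
    have hkl : (1 : ℝ) ≤ k * l := by nlinarith
    have h1 : (1 : ℝ) ≤ k * (r * l) := by nlinarith
    have h2 : ((k : ℝ) * (r * l) + 1) * (k * l + 1) ≤ (2 * (k * (r * l))) * (2 * (k * l)) :=
      mul_le_mul (by linarith) (by linarith) (by positivity) (by positivity)
    have h3 : r * (256 * (k : ℝ) ^ 2 * (l : ℝ) ^ 2) ≤ r * (l : ℝ) ^ J :=
      mul_le_mul_of_nonneg_left hJ (by linarith)
    have h4 : r * (l : ℝ) ^ J = V.card := by rw [hr]; field_simp
    nlinarith
  set G := S.filter fun u => Good c V k J u with hG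
  have hGS : G ⊆ S := filter_subset _ _
  have hGV : G ⊆ V := hGS.trans hSV
  have hGc : (G.card : ℝ) + (S.filter fun u => ¬ Good c V k J u).card = S.card := by
    exact_mod_cast card_filter_add_card_filter_not (s := S) (fun u => Good c V k J u)
  have hG3 : 3 * (V.card : ℝ) ≤ 32 * G.card := by linarith
  obtain ⟨E, hEG, hE, hlt⟩ := split G (G.card / 2) (Nat.div_le_self _ _)
  have hE1 : (G.card : ℝ) ≤ 2 * E.card + 1 := by
    have : G.card ≤ 2 * E.card + 1 := by omega
    exact_mod_cast this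
  have hL : (G.card : ℝ) ≤ 2 * (G \ E).card := by
    have h1 := card_sdiff_add_card_eq_card hEG
    have : G.card ≤ 2 * (G \ E).card := by omega
    exact_mod_cast this
  have hEne : E.Nonempty := by
    rw [← card_pos]
    have : (0 : ℝ) < E.card := by nlinarith
    exact_mod_cast this
  set u0 := E.min' hEne with hu0
  have hu0E : u0 ∈ E := E.min'_mem hEne
  have hex : ∃ a, V.card / (64 * k) + 1 < (((E.erase u0).filter fun w => c u0 w = a).card : ℝ) := by
    by_contra hcon
    push Not at hcon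
    obtain ⟨P, hP, hPc⟩ := hout u0 (hGS (hEG hu0E))
    have h1 := card_le_of_fibers (Z := E.erase u0) (P := P) (fun w => c u0 w)
      (fun w hw => hPc w (hGS (hEG (mem_erase.1 hw).2))
        (lt_of_le_of_ne (E.min'_le w (mem_erase.1 hw).2) (Ne.symm (mem_erase.1 hw).1)))
      fun a _ => hcon a
    have hP' : (P.card : ℝ) ≤ k := by exact_mod_cast hP
    have h2 : ((E.erase u0).card : ℝ) ≤ k * (V.card / (64 * k) + 1) :=
      h1.trans (mul_le_mul_of_nonneg_right hP' (by positivity))
    have h3 : (k : ℝ) * (V.card / (64 * k) + 1) = V.card / 64 + k := by field_simp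
    have h4 : ((E.erase u0).card : ℝ) + 1 = E.card := by exact_mod_cast card_erase_add_one hu0E
    nlinarith
  obtain ⟨a0, ha0⟩ := hex
  set W0 := (E.erase u0).filter fun w => c u0 w = a0 with hW0
  have hW0E : W0 ⊆ E := (filter_subset _ _).trans (erase_subset _ _)
  have hW0ne : W0.Nonempty := by
    rw [← card_pos]
    have h1 : (0 : ℝ) ≤ V.card / (64 * k) := by positivity
    have : (0 : ℝ) < W0.card := by linarith
    exact_mod_cast this
  set u1 := W0.max' hW0ne with hu1
  have hu1W : u1 ∈ W0 := W0.max'_mem hW0ne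
  set W := W0.erase u1 with hW
  have hWE : W ⊆ E := (erase_subset _ _).trans hW0E
  have hWV : W ⊆ V := hWE.trans (hEG.trans hGV)
  have hWc : (V.card : ℝ) ≤ 64 * k * W.card := by
    have h1 : (W.card : ℝ) + 1 = W0.card := by exact_mod_cast card_erase_add_one hu1W
    have h2 : (V.card : ℝ) / (64 * k) ≤ W.card := by linarith
    rw [div_le_iff₀ (by positivity)] at h2
    linarith
  obtain ⟨s0, A0, p0, haA, hkA⟩ := (mem_filter.1 (hEG hu0E)).2 a0
  have hpW : ∀ w ∈ W0, Path c V s0 w (insert a0 A0) := by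
    intro w hw
    have hw' := mem_filter.1 hw
    have hw2 := mem_erase.1 hw'.1
    have := Path.snoc p0 (hGV (hEG hw2.2)) (lt_of_le_of_ne (E.min'_le w hw2.2) (Ne.symm hw2.1))
      (by rw [hw'.2]; exact haA)
    rwa [hw'.2] at this
  set T := insert a0 A0 with hT
  have hTc : T.card = A0.card + 1 := card_insert_of_notMem haA
  have hTk : T.card < k := hR _ _ _ (hpW u1 hu1W)
  have hTfree : ∀ Y ⊆ W, Free c Y T → (Y.card : ℝ) * (l : ℝ) ^ T.card ≤ V.card :=
    fun Y hY hf => hH T.card (by omega) hTk Y (hY.trans hWV)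
      (noRb_of_free hR (hY.trans hWV) (fun w hw => ⟨s0, hpW w (mem_of_mem_erase (hY hw))⟩) hf)
  set b : ℝ := β * (l : ℝ) ^ (k - 1) with hb
  have hb1 : 1 ≤ b := one_le_mul_of_one_le_of_one_le hβ1 (one_le_pow₀ (by linarith))
  set G' := insert u1 (G \ E) with hG'
  have hG'G : G' ⊆ G := insert_subset (hEG (hW0E hu1W)) sdiff_subset
  have hWlt : ∀ u ∈ G', ∀ y ∈ W, y < u := by
    intro u hu y hy
    rcases mem_insert.1 hu with rfl | hu
    · exact lt_of_le_of_ne (W0.le_max' y (mem_erase.1 hy).2) (mem_erase.1 hy).1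
    · exact hlt y (hWE hy) u (mem_sdiff.1 hu).1 (mem_sdiff.1 hu).2
  have hround := rounds (T := T) hR (hG'G.trans hGV)
    (B := (2 * k / γ + (50 * J * γ ^ 2 + γ) + J) * b) (by positivity)
    (fun u hu s S' p hTS Z hZ hZc => by
      have hug : Good c V k J u := (mem_filter.1 (hG'G hu)).2
      have hZV : Z ⊆ V := hZ.trans (hG'G.trans hGV)
      obtain ⟨P, hP, hPc⟩ := hin u (hGS (hG'G hu))
      have h1 := group_bound hl hγ hF hR hβ0 hβ (hH (γ + J) (by omega) hk) hJ (by omega) hV hWV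
        hWc hTfree (hGV (hG'G hu)) (hWlt u hu) hug hP
        (fun y hy => hPc y (hGS (hEG (hWE hy))) (hWlt u hu y hy)) T.card T Subset.rfl rfl
        (Z.filter fun w => c u w ∈ T) ((filter_subset _ _).trans hZV)
        fun w hw => ⟨(hZc w (mem_filter.1 hw).1).1, (mem_filter.1 hw).2⟩
      have h2 := good_set (P := S' \ T) hF hR hβ0 hβ hug
        ((filter_subset (fun w => ¬ c u w ∈ T) Z).trans hZV) fun w hw =>
          ⟨(hZc w (mem_filter.1 hw).1).1,
            mem_sdiff.2 ⟨(hZc w (mem_filter.1 hw).1).2, (mem_filter.1 hw).2⟩⟩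
      have h3 : ((Z.filter fun w => c u w ∈ T).card : ℝ) + (Z.filter fun w => ¬ c u w ∈ T).card
          = Z.card := by
        exact_mod_cast card_filter_add_card_filter_not (s := Z) (fun w => c u w ∈ T)
      have h4 : ((S' \ T).card : ℝ) ≤ J := by
        have h5 := card_sdiff_add_card_eq_card hTS
        have h6 := hR _ _ _ p
        have : (S' \ T).card ≤ J := by omega
        exact_mod_cast this
      have h5 : (2 * T.card / γ : ℝ) ≤ 2 * k / γ := by
        have : (T.card : ℝ) ≤ k := by exact_mod_cast hTk.le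
        gcongr
      rw [← hb] at h1 h2
      have h6 := mul_le_mul_of_nonneg_right h4 (by linarith : 0 ≤ b)
      have h7 := mul_le_mul_of_nonneg_right h5 (by linarith : 0 ≤ b)
      linarith)
    J u1 (mem_insert_self _ _) s0 T (hpW u1 hu1W) Subset.rfl (by omega) (G \ E)
    (subset_insert _ _) fun w hw => hlt u1 (hW0E hu1W) w (mem_sdiff.1 hw).1 (mem_sdiff.1 hw).2
  have h8 : (J : ℝ) * (1 + (2 * k / γ + (50 * J * γ ^ 2 + γ) + J) * b)
      ≤ J * ((2 * k / γ + 50 * J * γ ^ 2 + γ + J + 1) * b) :=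
    mul_le_mul_of_nonneg_left (by linarith) (by positivity)
  have h9 : (0 : ℝ) ≤ (G \ E).card := by positivity
  rw [mul_assoc _ β, ← hb]
  linarith

/-- One step of the recursion. -/
theorem Bd.step {μ : ℝ} (hl : 2 ≤ l) (hγ : 1 ≤ γ) (hβ1 : 1 ≤ β) (hμ1 : 1 ≤ μ)
    (hβ : ∀ j, 1 ≤ j → j ≤ J → Bd l j β) (hμ : ∀ j, 1 ≤ j → j < k → Bd l j μ)
    (hJ : 256 * (k : ℝ) ^ 2 * (l : ℝ) ^ 2 ≤ (l : ℝ) ^ J) (hk : γ + J < k) (hk3 : 3 ≤ k)
    (hK : 32 * J * (2 * k / γ + 50 * J * γ ^ 2 + γ + J + 1) * β ≤ μ) : Bd l k μ := by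
  intro c V hF hR
  by_contra hcon
  push Not at hcon
  have hp : (0 : ℝ) ≤ (l : ℝ) ^ (k - 1) := by positivity
  have := main_bound hl hγ hF hR hβ1 hβ (fun s hs1 hsk X hX h => by
    have h1 := hμ (k - s) (by omega) (by omega) c X (hF.mono hX) h
    calc (X.card : ℝ) * (l : ℝ) ^ s ≤ μ * (l : ℝ) ^ (k - s - 1) * (l : ℝ) ^ s :=
          mul_le_mul_of_nonneg_right h1 (by positivity)
      _ = μ * (l : ℝ) ^ (k - 1) := by
          rw [mul_assoc, ← pow_add, show k - s - 1 + s = k - 1 by omega]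
      _ ≤ V.card := hcon.le) hJ hk hk3 (by nlinarith)
  have h2 := mul_le_mul_of_nonneg_right hK hp
  linarith

/-- A crude bound, uniform in `l`. -/
theorem Bd.base (hl : 1 ≤ l) (k : ℕ) : Bd l (k + 1) ((k + 2).factorial) := by
  classical
  have hl' : (1 : ℝ) ≤ l := by exact_mod_cast hl
  induction k with
  | zero =>
    intro c V _ hR
    have : V.card ≤ 1 := by
      refine card_le_one.2 fun a ha b hb => ?_
      by_contra hne
      rcases lt_or_gt_of_ne hne with h | h
      · have := hR _ _ _ (Path.snoc (Path.refl ha) hb h (notMem_empty _)); simp at this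
      · have := hR _ _ _ (Path.snoc (Path.refl hb) ha h (notMem_empty _)); simp at this
    have : (V.card : ℝ) ≤ 1 := by exact_mod_cast this
    simp [Nat.factorial]; linarith
  | succ k ih =>
    intro c V hF hR
    have hf1 : (1 : ℝ) ≤ (k + 2).factorial := by exact_mod_cast Nat.factorial_pos _
    let E : ℕ → Prop := fun v => ∃ s A, Path c V s v A ∧ k + 1 ≤ A.card
    have h1 : ((V.filter fun v => ¬ E v).card : ℝ) ≤ (k + 2).factorial * (l : ℝ) ^ k :=
      ih c _ (hF.mono (filter_subset _ _)) fun s v A p => by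
        by_contra hc
        exact (mem_filter.1 p.end_mem).2 ⟨s, A, p.mono (filter_subset _ _), by omega⟩
    have h2 : ((V.filter E).card : ℝ) + (V.filter fun v => ¬ E v).card = V.card := by
      exact_mod_cast card_filter_add_card_filter_not (s := V) E
    have hp : (l : ℝ) ^ k ≤ (l : ℝ) ^ (k + 1) := pow_le_pow_right₀ hl' (by omega)
    have hp1 : (1 : ℝ) ≤ (l : ℝ) ^ (k + 1) := one_le_pow₀ hl'
    have h3 : ((V.filter E).card : ℝ) ≤ (k + 1) * ((k + 2).factorial * (l : ℝ) ^ (k + 1)) + 1 := by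
      rcases (V.filter E).eq_empty_or_nonempty with h | hne
      · rw [h]; simp; positivity
      have hm := Finset.min'_mem _ hne
      have hm' := mem_filter.1 hm
      obtain ⟨s, A, p, hA⟩ := hm'.2
      have hA2 := hR _ _ _ p
      have h4 := card_le_of_fibers (Z := (V.filter E).erase (Finset.min' _ hne)) (P := A)
        (fun w => c (Finset.min' _ hne) w) (fun w hw => by
          by_contra hc
          have hw' := mem_erase.1 hw
          have := hR _ _ _ (Path.snoc p (mem_filter.1 hw'.2).1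
            (lt_of_le_of_ne (Finset.min'_le _ w hw'.2) (Ne.symm hw'.1)) hc)
          rw [card_insert_of_notMem hc] at this
          omega) (x := (k + 2).factorial * (l : ℝ) ^ (k + 1)) fun a _ => by
        have hsub : (((V.filter E).erase (Finset.min' _ hne)).filter
            fun w => c (Finset.min' _ hne) w = a) ⊆ V :=
          (filter_subset _ _).trans ((erase_subset _ _).trans (filter_subset _ _))
        have := card_le_of_free (T := {a}) (hF.mono hsub)
          (ν := (k + 2).factorial * (l : ℝ) ^ k) fun Y hY hf =>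
            ih c Y (hF.mono (hY.trans hsub)) (noRb_of_free (T := {a}) hR (hY.trans hsub)
              (fun w hw => ⟨Finset.min' _ hne, by
                have hw1 := mem_filter.1 (hY hw)
                have hw' := mem_erase.1 hw1.1
                have := Path.snoc (c := c) (Path.refl hm'.1) (mem_filter.1 hw'.2).1
                  (lt_of_le_of_ne (Finset.min'_le _ w hw'.2) (Ne.symm hw'.1)) (notMem_empty _)
                rw [hw1.2] at this
                simpa using this⟩) hf)
        rw [card_singleton, pow_one, mul_assoc, ← pow_succ] at this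
        exact this
      have h5 : (A.card : ℝ) ≤ k + 1 := by exact_mod_cast (by omega : A.card ≤ k + 1)
      have h6 : ((((V.filter E).erase (Finset.min' _ hne)).card : ℕ) : ℝ) + 1
          = (V.filter E).card := by exact_mod_cast card_erase_add_one hm
      have h7 := mul_le_mul_of_nonneg_right h5
        (by positivity : (0 : ℝ) ≤ (k + 2).factorial * (l : ℝ) ^ (k + 1))
      linarith
    have h4 : (((k + 1 + 2).factorial : ℕ) : ℝ) = (k + 3) * (k + 2).factorial := by
      rw [show k + 1 + 2 = (k + 2) + 1 by ring, Nat.factorial_succ]; push_cast; ring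
    have h5 := mul_le_mul_of_nonneg_left hp (by linarith : (0 : ℝ) ≤ (k + 2).factorial)
    have h6 : (1 : ℝ) ≤ (k + 2).factorial * (l : ℝ) ^ (k + 1) :=
      one_le_mul_of_one_le_of_one_le hf1 hp1
    rw [h4, show k + 1 + 1 - 1 = k + 1 by omega]
    nlinarith

end Pool.Agent.P.MP_f298ee_co
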