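import Pool.Agent.P.MP_f298ee_co.Entropy

/-!
Auxiliary counting lemmas, bundles, good vertices.
-/

namespace Pool.Agent.P.MP_f298ee_co

open Finset Real

/-- Every colouring without `l`-flash and `k`-rainbow has at most `x * l ^ (k - 1)` vertices. -/
def Bd (l k : ℕ) (x : ℝ) : Prop :=
  ∀ (c : ℕ → ℕ → ℕ) (V : Finset ℕ), NoFl c V l → NoRb c V k → (V.card : ℝ) ≤ x * (l : ℝ) ^ (k - 1)

theorem Bd.mono {l k : ℕ} {x y : ℝ} (h : Bd l k x) (hxy : x ≤ y) : Bd l k y :=
  fun c V h1 h2 => (h c V h1 h2).trans (mul_le_mul_of_nonneg_right hxy (by positivity))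

theorem half (R : Finset ℕ) (p : ℕ → Prop) :
    ∃ R' ⊆ R, (R.card : ℝ) ≤ 2 * R'.card ∧ ((∀ v ∈ R', p v) ∨ (∀ v ∈ R', ¬ p v)) := by
  classical
  have h : ((R.filter p).card : ℝ) + (R.filter fun v => ¬ p v).card = R.card := by
    exact_mod_cast card_filter_add_card_filter_not (s := R) p
  rcases le_total ((R.filter p).card : ℝ) (R.filter fun v => ¬ p v).card with h1 | h1
  · exact ⟨_, filter_subset _ _, by linarith, Or.inr fun v hv => (mem_filter.1 hv).2⟩
  · exact ⟨_, filter_subset _ _, by linarith, Or.inl fun v hv => (mem_filter.1 hv).2⟩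

theorem card_le_two_mul {B : Finset ℕ} (G : ℕ → Finset ℕ) {M : ℝ} (hM : 0 ≤ M)
    (h : ∀ y ∈ B, ∀ u ∈ B, y ∈ G u ∨ u ∈ G y) (hG : ∀ u ∈ B, ((G u).card : ℝ) ≤ M) :
    (B.card : ℝ) ≤ 2 * M := by
  classical
  rcases B.eq_empty_or_nonempty with rfl | hne
  · simp; linarith
  have hpos : (0 : ℝ) < B.card := by exact_mod_cast hne.card_pos
  have h1 : ∑ u ∈ B, ∑ y ∈ B, (if y ∈ G u then (1 : ℝ) else 0) ≤ B.card * M := by
    calc ∑ u ∈ B, ∑ y ∈ B, (if y ∈ G u then (1 : ℝ) else 0) ≤ ∑ _u ∈ B, M := by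
          refine sum_le_sum fun u hu => le_trans ?_ (hG u hu)
          rw [← sum_filter, sum_const, nsmul_eq_mul, mul_one]
          exact_mod_cast card_le_card fun y hy => (mem_filter.1 hy).2
      _ = _ := by simp
  have h2 : ∑ u ∈ B, ∑ y ∈ B, (if u ∈ G y then (1 : ℝ) else 0) ≤ B.card * M := by
    rw [sum_comm]; exact h1
  have h3 : (B.card : ℝ) * B.card ≤ B.card * (2 * M) := by
    calc (B.card : ℝ) * B.card = ∑ _u ∈ B, ∑ _y ∈ B, (1 : ℝ) := by simp
      _ ≤ ∑ u ∈ B, ∑ y ∈ B, ((if y ∈ G u then (1 : ℝ) else 0) + if u ∈ G y then 1 else 0) := by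
          refine sum_le_sum fun u hu => sum_le_sum fun y hy => ?_
          rcases h y hy u hu with h' | h'
          · rw [if_pos h']; split_ifs <;> norm_num
          · rw [if_pos h']; split_ifs <;> norm_num
      _ ≤ _ := by simp only [sum_add_distrib]; linarith
  exact le_of_mul_le_mul_left h3 hpos

theorem split (G : Finset ℕ) : ∀ h ≤ G.card, ∃ E ⊆ G, E.card = h ∧
    ∀ e ∈ E, ∀ w ∈ G, w ∉ E → e < w := by
  intro h
  induction h with
  | zero => intro _; exact ⟨∅, empty_subset _, rfl, by simp⟩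
  | succ h ih =>
    intro hh
    obtain ⟨E, hEG, hE, hlt⟩ := ih (by omega)
    have hne : (G \ E).Nonempty := by
      rw [← card_pos]
      have := card_sdiff_add_card_eq_card hEG
      omega
    have hm := mem_sdiff.1 ((G \ E).min'_mem hne)
    refine ⟨insert ((G \ E).min' hne) E, insert_subset hm.1 hEG,
      by rw [card_insert_of_notMem hm.2, hE], fun e he w hw hwE => ?_⟩
    rw [mem_insert, not_or] at hwE
    rcases mem_insert.1 he with rfl | he
    · exact lt_of_le_of_ne ((G \ E).min'_le w (mem_sdiff.2 ⟨hw, hwE.2⟩)) (Ne.symm hwE.1)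
    · exact hlt e he w hw hwE.2

variable {c : ℕ → ℕ → ℕ} {V : Finset ℕ} {l k J : ℕ} {β : ℝ}

theorem noRb_of_free (hR : NoRb c V k) {Y T : Finset ℕ} (hYV : Y ⊆ V)
    (hp : ∀ w ∈ Y, ∃ s, Path c V s w T) (hf : Free c Y T) : NoRb c Y (k - T.card) := by
  intro s v A p
  obtain ⟨s0, q⟩ := hp s p.start_mem
  have hd := (p.disjoint_of_free hf).symm
  have := hR _ _ _ (q.trans (p.mono hYV) hd)
  rw [card_union_of_disjoint hd] at this
  omega

theorem bundle (hF : NoFl c V l) (hR : NoRb c V k) (hβ0 : 0 ≤ β)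
    (hβ : ∀ j, 1 ≤ j → j ≤ J → Bd l j β) {Z T : Finset ℕ} (hZV : Z ⊆ V)
    (hp : ∀ w ∈ Z, ∃ s, Path c V s w T) (hT : k ≤ T.card + J) :
    (Z.card : ℝ) ≤ β * (l : ℝ) ^ (k - 1) := by
  rcases Z.eq_empty_or_nonempty with rfl | ⟨w, hw⟩
  · simp; positivity
  obtain ⟨s, q⟩ := hp w hw
  have ht := hR _ _ _ q
  have := card_le_of_free (T := T) (hF.mono hZV) (ν := β * (l : ℝ) ^ (k - T.card - 1))
    fun Y hY hf => hβ _ (by omega) (by omega) c Y (hF.mono (hY.trans hZV))
      (noRb_of_free hR (hY.trans hZV) (fun w hw => hp w (hY hw)) hf)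
  rwa [mul_assoc, ← pow_add, show k - T.card - 1 + T.card = k - 1 by omega] at this

/-- A vertex is good if every colour is avoided by a long rainbow ending at it. -/
def Good (c : ℕ → ℕ → ℕ) (V : Finset ℕ) (k J u : ℕ) : Prop :=
  ∀ a, ∃ s A, Path c V s u A ∧ a ∉ A ∧ k ≤ A.card + J

theorem good_set (hF : NoFl c V l) (hR : NoRb c V k) (hβ0 : 0 ≤ β)
    (hβ : ∀ j, 1 ≤ j → j ≤ J → Bd l j β) {u : ℕ} (hu : Good c V k J u) {Z P : Finset ℕ}
    (hZV : Z ⊆ V) (hZ : ∀ w ∈ Z, u < w ∧ c u w ∈ P) :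
    (Z.card : ℝ) ≤ P.card * (β * (l : ℝ) ^ (k - 1)) := by
  refine card_le_of_fibers (fun w => c u w) (fun w hw => (hZ w hw).2) fun a _ => ?_
  obtain ⟨s, A, p, ha, hk⟩ := hu a
  refine bundle (T := insert a A) hF hR hβ0 hβ ((filter_subset _ _).trans hZV)
    (fun w hw => ⟨s, ?_⟩) (by rw [card_insert_of_notMem ha]; omega)
  have hw' := mem_filter.1 hw
  have := Path.snoc p (hZV hw'.1) (hZ w hw'.1).1 (by rw [hw'.2]; exact ha)
  rwa [hw'.2] at this

/-- A large part of the vertex set in which all palettes are small. -/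
theorem star (hl : 2 ≤ l) (hR : NoRb c V k)
    (hH : ∀ X ⊆ V, NoRb c X (k - 2) → (X.card : ℝ) * (l : ℝ) ^ 2 ≤ V.card) :
    ∃ S ⊆ V, (V.card : ℝ) ≤ 8 * S.card ∧
      (∀ u ∈ S, ∃ P : Finset ℕ, P.card ≤ k ∧ ∀ v ∈ S, u < v → c u v ∈ P) ∧
      (∀ v ∈ S, ∃ P : Finset ℕ, P.card ≤ k ∧ ∀ u ∈ S, u < v → c u v ∈ P) := by
  classical
  have hl' : (2 : ℝ) ≤ l := by exact_mod_cast hl
  let E : ℕ → ℕ → Prop := fun r v => ∃ s A, Path c V s v A ∧ k ≤ A.card + r
  let F : ℕ → ℕ → Prop := fun r v => ∃ t A, Path c V v t A ∧ k ≤ A.card + r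
  have h1 : 4 * ((V.filter fun v => ¬ E 2 v).card : ℝ) ≤ V.card := by
    have := hH (V.filter fun v => ¬ E 2 v) (filter_subset _ _) fun s v A p => by
      by_contra hc
      exact (mem_filter.1 p.end_mem).2 ⟨s, A, p.mono (filter_subset _ _), by omega⟩
    have h4 : (4 : ℝ) ≤ (l : ℝ) ^ 2 := by nlinarith
    nlinarith [Nat.cast_nonneg (α := ℝ) (V.filter fun v => ¬ E 2 v).card]
  have h2 : 4 * ((V.filter fun v => ¬ F 2 v).card : ℝ) ≤ V.card := by
    have := hH (V.filter fun v => ¬ F 2 v) (filter_subset _ _) fun s v A p => by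
      by_contra hc
      exact (mem_filter.1 p.start_mem).2 ⟨v, A, p.mono (filter_subset _ _), by omega⟩
    have h4 : (4 : ℝ) ≤ (l : ℝ) ^ 2 := by nlinarith
    nlinarith [Nat.cast_nonneg (α := ℝ) (V.filter fun v => ¬ F 2 v).card]
  set R := V.filter fun v => E 2 v ∧ F 2 v with hRdef
  have h3 : (V.card : ℝ) ≤ R.card + (V.filter fun v => ¬ E 2 v).card
      + (V.filter fun v => ¬ F 2 v).card := by
    have : V ⊆ R ∪ (V.filter fun v => ¬ E 2 v) ∪ (V.filter fun v => ¬ F 2 v) := by
      intro v hv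
      simp only [hRdef, mem_union, mem_filter, hv, true_and]
      by_cases h1 : E 2 v
      · by_cases h2 : F 2 v
        · exact Or.inl (Or.inl ⟨h1, h2⟩)
        · exact Or.inr h2
      · exact Or.inl (Or.inr h1)
    have h5 := (card_le_card this).trans ((card_union_le _ _).trans
      (Nat.add_le_add_right (card_union_le _ _) _))
    exact_mod_cast h5
  obtain ⟨R1, hR1, hc1, hp1⟩ := half R (E 1)
  obtain ⟨S, hS, hc2, hp2⟩ := half R1 (F 1)
  have hSV : S ⊆ V := hS.trans (hR1.trans (filter_subset _ _))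
  refine ⟨S, hSV, by linarith, fun u hu => ?_, fun v hv => ?_⟩
  · rcases hp1 with hp1 | hp1
    · obtain ⟨s, A, p, hk⟩ := hp1 u (hS hu)
      refine ⟨A, (hR _ _ _ p).le, fun v hv huv => ?_⟩
      by_contra hc
      have := hR _ _ _ (Path.snoc p (hSV hv) huv hc)
      rw [card_insert_of_notMem hc] at this
      omega
    · obtain ⟨s, A, p, hk⟩ := (mem_filter.1 (hR1 (hS hu))).2.1
      refine ⟨A, (hR _ _ _ p).le, fun v hv huv => ?_⟩
      by_contra hc
      exact hp1 v (hS hv) ⟨s, _, Path.snoc p (hSV hv) huv hc, by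
        rw [card_insert_of_notMem hc]; omega⟩
  · rcases hp2 with hp2 | hp2
    · obtain ⟨t, A, p, hk⟩ := hp2 v hv
      refine ⟨A, (hR _ _ _ p).le, fun u hu huv => ?_⟩
      by_contra hc
      have := hR _ _ _ (Path.cons (hSV hu) huv p hc)
      rw [card_insert_of_notMem hc] at this
      omega
    · obtain ⟨t, A, p, hk⟩ := (mem_filter.1 (hR1 (hS hv))).2.2
      refine ⟨A, (hR _ _ _ p).le, fun u hu huv => ?_⟩
      by_contra hc
      exact hp2 u hu ⟨t, _, Path.cons (hSV hu) huv p hc, by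
        rw [card_insert_of_notMem hc]; omega⟩

/-- There are few bad vertices. -/
theorem bad_card (hF : NoFl c V l) {S : Finset ℕ} (hSV : S ⊆ V)
    (hout : ∀ u ∈ S, ∃ P : Finset ℕ, P.card ≤ k ∧ ∀ v ∈ S, u < v → c u v ∈ P)
    (hin : ∀ v ∈ S, ∃ P : Finset ℕ, P.card ≤ k ∧ ∀ u ∈ S, u < v → c u v ∈ P)
    {ν : ℝ} (hν : 0 ≤ ν) (hH : ∀ X ⊆ V, NoRb c X (k - (J + 1)) → (X.card : ℝ) ≤ ν)
    {B : Finset ℕ} (hBS : B ⊆ S) (hB : ∀ u ∈ B, ¬ Good c V k J u) :
    (B.card : ℝ) ≤ 2 * ((k * (ν * (l : ℝ) ^ 2) + 1) * (k * l + 1)) := by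
  classical
  simp only [Good, not_forall, not_exists, not_and] at hB
  choose! a ha using hB
  set x : ℝ := k * (ν * (l : ℝ) ^ 2) with hx
  have hx0 : 0 ≤ x := by positivity
  have hD : ∀ u ∈ B, ((B.filter fun y => y < u ∧ c y u ≠ a u).card : ℝ) ≤ x := by
    intro u hu
    obtain ⟨P, hP, hPc⟩ := hin u (hBS hu)
    have h1 := card_le_of_fibers (Z := B.filter fun y => y < u ∧ c y u ≠ a u) (P := P)
      (fun y => c y u) (fun y hy => by
        have hy' := mem_filter.1 hy
        exact hPc y (hBS hy'.1) hy'.2.1) (x := ν * (l : ℝ) ^ 2) fun b _ => by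
      have hsub : ((B.filter fun y => y < u ∧ c y u ≠ a u).filter fun y => c y u = b) ⊆ V :=
        (filter_subset _ _).trans ((filter_subset _ _).trans (hBS.trans hSV))
      rcases eq_or_ne (a u) b with hab | hab
      · rw [filter_eq_empty_iff.2]
        · simp; positivity
        · intro y hy hc
          exact (mem_filter.1 hy).2.2 (hc.trans hab.symm)
      have := card_le_of_free (T := {a u, b}) (hF.mono hsub) (ν := ν) fun Y hY hf =>
        hH Y (hY.trans hsub) fun s v A p => by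
          have hd := p.disjoint_of_free hf
          have hv := mem_filter.1 (hY p.end_mem)
          have hv' := mem_filter.1 hv.1
          have hb : c v u ∉ A := fun hm => disjoint_left.1 hd hm (by rw [hv.2]; simp)
          have h2 := ha u hu s _ (Path.snoc (p.mono (hY.trans hsub)) (hSV (hBS hu)) hv'.2.1 hb)
            (by
              rw [mem_insert, not_or]
              exact ⟨fun h => hv'.2.2 h.symm, fun hm => disjoint_left.1 hd hm (by simp)⟩)
          rw [card_insert_of_notMem hb] at h2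
          omega
      rwa [card_pair hab] at this
    refine h1.trans (mul_le_mul_of_nonneg_right (by exact_mod_cast hP) (by positivity))
  have hBa : ∀ b, ((B.filter fun u => a u = b).card : ℝ) ≤ (x + 1) * l := by
    intro b
    have := card_le_of_free (T := {b}) (hF.mono ((filter_subset (fun u => a u = b) B).trans
      (hBS.trans hSV))) (ν := x + 1) fun Y hY hf => by
        rcases Y.eq_empty_or_nonempty with rfl | hne
        · simp; linarith
        have hm := Y.max'_mem hne
        have hm' := mem_filter.1 (hY hm)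
        have h1 : Y.erase (Y.max' hne) ⊆
            B.filter fun y => y < Y.max' hne ∧ c y (Y.max' hne) ≠ a (Y.max' hne) := by
          intro y hy
          have hy' := mem_erase.1 hy
          have hlt : y < Y.max' hne := lt_of_le_of_ne (Y.le_max' y hy'.2) hy'.1
          refine mem_filter.2 ⟨(mem_filter.1 (hY hy'.2)).1, hlt, ?_⟩
          rw [hm'.2]
          exact fun hc => hf y hy'.2 _ hm hlt (by rw [hc]; simp)
        have h2 : ((Y.erase (Y.max' hne)).card : ℝ) ≤ x :=
          le_trans (by exact_mod_cast card_le_card h1) (hD _ hm'.1)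
        have h3 : ((Y.erase (Y.max' hne)).card : ℝ) + 1 = Y.card := by
          exact_mod_cast card_erase_add_one hm
        linarith
    simpa using this
  have hFy : ∀ y ∈ B, ((B.filter fun u => y < u ∧ c y u = a u).card : ℝ) ≤ k * ((x + 1) * l) := by
    intro y hy
    obtain ⟨P, hP, hPc⟩ := hout y (hBS hy)
    have h1 := card_le_of_fibers (Z := B.filter fun u => y < u ∧ c y u = a u) (P := P) a
      (fun u hu => by
        have hu' := mem_filter.1 hu
        rw [← hu'.2.2]
        exact hPc u (hBS hu'.1) hu'.2.1) (x := (x + 1) * l) fun b _ => by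
      refine le_trans ?_ (hBa b)
      exact_mod_cast card_le_card (filter_subset_filter _ (filter_subset _ _))
    refine h1.trans (mul_le_mul_of_nonneg_right (by exact_mod_cast hP) (by positivity))
  refine card_le_two_mul (fun u => insert u ((B.filter fun y => y < u ∧ c y u ≠ a u) ∪
    (B.filter fun w => u < w ∧ c u w = a w))) (by positivity) (fun y hy u hu => ?_) fun u hu => ?_
  · simp only [mem_insert, mem_union, mem_filter, hy, hu, true_and]
    rcases lt_trichotomy y u with h | h | h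
    · by_cases hc : c y u = a u <;> simp [h, hc]
    · simp [h]
    · by_cases hc : c u y = a y <;> simp [h, hc]
  · have h1 := (card_insert_le u ((B.filter fun y => y < u ∧ c y u ≠ a u) ∪
      (B.filter fun w => u < w ∧ c u w = a w))).trans (Nat.add_le_add_right (card_union_le _ _) 1)
    have h2 : ((insert u ((B.filter fun y => y < u ∧ c y u ≠ a u) ∪
      (B.filter fun w => u < w ∧ c u w = a w))).card : ℝ) ≤
        (B.filter fun y => y < u ∧ c y u ≠ a u).card +
          (B.filter fun w => u < w ∧ c u w = a w).card + 1 := by exact_mod_cast h1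
    have h3 := hD u hu
    have h4 := hFy u hu
    nlinarith

end Pool.Agent.P.MP_f298ee_co
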